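import Pool.Agent.H32.RJ4.Join

/-!
# A checker for `Plug`

The graph is given by bit masks, the labels by a list; all independent sets are enumerated.
-/

namespace Pool.Agent.H32.RJ4

open Finset SimpleGraph

/-- Enumerate the independent sets (bit masks `adj`, blocked vertices `Q`, `cnt` chosen vertices
with labels `fl`) inside `{0, ..., n-1}` and test the bound. -/
def go (adj : ℕ → ℕ) (lab : ℕ → ℕ) (j : ℕ) : ℕ → ℕ → ℕ → ℕ → Bool
  | 0, _, cnt, fl =>
    Nat.ble cnt (j + (bif fl.testBit 0 && fl.testBit 1 then 1 else 0) +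
      (bif fl.testBit 2 && fl.testBit 3 then 1 else 0))
  | n + 1, Q, cnt, fl =>
    go adj lab j n Q cnt fl &&
      (Q.testBit n || go adj lab j n (Q ||| adj n) (cnt + 1) (fl ||| 2 ^ lab n))

lemma go_sound (adj lab : ℕ → ℕ) (j : ℕ) :
    ∀ n Q cnt fl, go adj lab j n Q cnt fl = true → ∀ S : Finset ℕ, (∀ x ∈ S, x < n) →
      (∀ x ∈ S, Q.testBit x = false) → (∀ x ∈ S, ∀ y ∈ S, (adj x).testBit y = false) →
      ∀ h : ℕ → Prop, (∀ i, h i ↔ (fl.testBit i = true ∨ ∃ x ∈ S, lab x = i)) →
      (¬ (h 0 ∧ h 1) → ¬ (h 2 ∧ h 3) → cnt + S.card ≤ j) ∧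
      (¬ ((h 0 ∧ h 1) ∧ (h 2 ∧ h 3)) → cnt + S.card ≤ j + 1) ∧ cnt + S.card ≤ j + 2 := by
  intro n
  induction n with
  | zero =>
    intro Q cnt fl hgo S hS _ _ h hh
    have hS0 : S = ∅ := by
      rw [Finset.eq_empty_iff_forall_notMem]
      intro x hx
      exact absurd (hS x hx) (by omega)
    subst hS0
    have hh' : ∀ i, h i ↔ fl.testBit i = true := by
      intro i
      rw [hh i]
      simp
    have h0 := hh' 0
    have h1 := hh' 1
    have h2 := hh' 2
    have h3 := hh' 3
    rw [h0, h1, h2, h3]
    unfold go at hgo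
    rw [Nat.ble_eq] at hgo
    rcases e0 : fl.testBit 0 with _ | _ <;> rcases e1 : fl.testBit 1 with _ | _ <;>
      rcases e2 : fl.testBit 2 with _ | _ <;> rcases e3 : fl.testBit 3 with _ | _ <;>
      simp [e0, e1, e2, e3] at hgo ⊢ <;> omega
  | succ n ih =>
    intro Q cnt fl hgo S hS hQ hind h hh
    unfold go at hgo
    rw [Bool.and_eq_true, Bool.or_eq_true] at hgo
    by_cases hn : n ∈ S
    · have h2 := hgo.2.resolve_left (by rw [hQ n hn]; simp)
      have := ih _ _ _ h2 (S.erase n) ?_ ?_ ?_ h ?_
      · rw [Finset.card_erase_of_mem hn] at this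
        have hpos : 0 < S.card := Finset.card_pos.2 ⟨n, hn⟩
        refine ⟨fun a b => ?_, fun a => ?_, ?_⟩
        · have := this.1 a b
          omega
        · have := this.2.1 a
          omega
        · have := this.2.2
          omega
      · intro x hx
        rw [Finset.mem_erase] at hx
        have := hS x hx.2
        omega
      · intro x hx
        rw [Finset.mem_erase] at hx
        rw [Nat.testBit_or, hQ x hx.2, hind n hn x hx.2]
        rfl
      · intro x hx y hy
        exact hind x (Finset.mem_of_mem_erase hx) y (Finset.mem_of_mem_erase hy)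
      · intro i
        rw [hh i, Nat.testBit_or, Bool.or_eq_true, Nat.testBit_two_pow, or_assoc]
        constructor
        · rintro (h1 | ⟨x, hx, hxi⟩)
          · exact Or.inl h1
          · by_cases hxn : x = n
            · subst hxn
              exact Or.inr (Or.inl (by simp [hxi]))
            · exact Or.inr (Or.inr ⟨x, Finset.mem_erase.2 ⟨hxn, hx⟩, hxi⟩)
        · rintro (h1 | h1 | ⟨x, hx, hxi⟩)
          · exact Or.inl h1
          · exact Or.inr ⟨n, hn, by simpa using h1⟩
          · exact Or.inr ⟨x, Finset.mem_of_mem_erase hx, hxi⟩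
    · refine ih _ _ _ hgo.1 S ?_ hQ hind h hh
      intro x hx
      have := hS x hx
      rcases Nat.lt_or_ge x n with h | h
      · exact h
      · have : x = n := by omega
        exact absurd (this ▸ hx) hn

/-- The graph on `Fin m` with the given bit masks. -/
def ofMask (m : ℕ) (adj : ℕ → ℕ) (hs : ∀ x y : Fin m, (adj x).testBit y = (adj y).testBit x)
    (hl : ∀ x : Fin m, (adj x).testBit x = false) : SimpleGraph (Fin m) where
  Adj x y := (adj x).testBit y = true
  symm := ⟨fun x y h => by
    have h' : (adj x).testBit y = true := h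
    rw [hs x y] at h'
    exact h'⟩
  loopless := ⟨fun x h => by
    have h' : (adj x).testBit x = true := h
    rw [hl x] at h'
    exact Bool.false_ne_true h'⟩

/-- All finite conditions together. -/
theorem plug_of_check {m : ℕ} {adj lab : ℕ → ℕ} {j : ℕ}
    (hs : ∀ x y : Fin m, (adj x).testBit y = (adj y).testBit x)
    (hl : ∀ x : Fin m, (adj x).testBit x = false)
    (ht : ∀ x y : Fin m, (adj x).testBit y = true → adj x &&& adj y = 0)
    (hc : ∀ x y : Fin m, (adj x).testBit y = true → lab x = lab y → lab x = 4)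
    (h5 : ∀ x : Fin m, lab x < 5)
    (hgo : go adj lab j m 0 0 0 = true) :
    Plug (ofMask m adj hs hl) (fun x => ⟨lab x, h5 x⟩) j where
  tri := by
    intro x y z hxy hyz hxz
    have h1 : (adj x).testBit y = true := hxy
    have h2 : (adj y).testBit z = true := hyz
    have h3 : (adj x).testBit z = true := hxz
    have h4 := ht x y h1
    have h6 : (adj x &&& adj y).testBit z = true := by
      rw [Nat.testBit_and, h2, h3]
      rfl
    rw [h4, Nat.zero_testBit] at h6
    exact Bool.false_ne_true h6
  lab := by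
    intro x y hxy h
    have h1 : (adj x).testBit y = true := hxy
    have h2 : lab x = lab y := by simpa using h
    have h3 := hc x y h1 h2
    exact Fin.ext h3
  ind := by
    intro S hS
    have key := go_sound adj lab j m 0 0 0 hgo (S.map Fin.valEmbedding) ?_ ?_ ?_
      (fun i => ∃ x ∈ S, lab x = i) ?_
    · rw [Finset.card_map] at key
      simp only [zero_add] at key
      have e : ∀ i : Fin 5, (∃ x ∈ S, (⟨lab x, h5 x⟩ : Fin 5) = i) ↔ ∃ x ∈ S, lab x = (i : ℕ) := by
        intro i
        constructor
        · rintro ⟨x, hx, h⟩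
          exact ⟨x, hx, congrArg Fin.val h⟩
        · rintro ⟨x, hx, h⟩
          exact ⟨x, hx, Fin.ext h⟩
      have e0 := e 0
      have e1 := e 1
      have e2 := e 2
      have e3 := e 3
      simp only [e0, e1, e2, e3]
      exact key
    · intro x hx
      obtain ⟨y, _, rfl⟩ := Finset.mem_map.1 hx
      exact y.2
    · intro x _
      exact Nat.zero_testBit x
    · intro x hx y hy
      obtain ⟨x', hx', rfl⟩ := Finset.mem_map.1 hx
      obtain ⟨y', hy', rfl⟩ := Finset.mem_map.1 hy
      exact Bool.eq_false_iff.2 (hS x' hx' y' hy')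
    · intro i
      simp only [Nat.zero_testBit, Bool.false_eq_true, false_or, Finset.mem_map,
        Fin.valEmbedding_apply]
      constructor
      · rintro ⟨x, hx, h⟩
        exact ⟨x, ⟨x, hx, rfl⟩, h⟩
      · rintro ⟨_, ⟨x, hx, rfl⟩, h⟩
        exact ⟨x, hx, h⟩

end Pool.Agent.H32.RJ4
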