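import Pool.Agent.H32.RJ4.Quad

/-!
# Joining a finite graph along four disjoint independent sets
-/

namespace Pool.Agent.H32.RJ4

open Finset SimpleGraph Pool.Agent.H41.RamseyStep

/-- The graph `X` with the labels `c` (in `{0, 1, 2, 3}`, or `4` if there is none) can be joined to
every graph with a `Quad` at the cost of `j`: it is triangle-free, equally labelled vertices are
not adjacent, and an independent set `S` has at most
`j + [S meets the labels 0 and 1] + [S meets the labels 2 and 3]` elements. -/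
structure Plug {W : Type*} (X : SimpleGraph W) (c : W → Fin 5) (j : ℕ) : Prop where
  tri : ∀ x y z, X.Adj x y → X.Adj y z → X.Adj x z → False
  lab : ∀ x y, X.Adj x y → c x = c y → c x = 4
  ind : ∀ S : Finset W, (∀ x ∈ S, ∀ y ∈ S, ¬ X.Adj x y) →
    (¬ ((∃ x ∈ S, c x = 0) ∧ ∃ x ∈ S, c x = 1) →
      ¬ ((∃ x ∈ S, c x = 2) ∧ ∃ x ∈ S, c x = 3) → S.card ≤ j) ∧
    (¬ (((∃ x ∈ S, c x = 0) ∧ ∃ x ∈ S, c x = 1) ∧
      ((∃ x ∈ S, c x = 2) ∧ ∃ x ∈ S, c x = 3)) → S.card ≤ j + 1) ∧ S.card ≤ j + 2

/-- The set attached to a label. -/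
def att {V : Type*} (A : Fin 4 → Set V) (l : Fin 5) : Set V :=
  {u | ∃ i : Fin 4, l = i.castSucc ∧ u ∈ A i}

/-- The join of `G` and `X`: the vertex `x` of `X` is adjacent to the set with the label of `x`. -/
def join {V W : Type*} (G : SimpleGraph V) (A : Fin 4 → Set V) (X : SimpleGraph W)
    (c : W → Fin 5) : SimpleGraph (V ⊕ W) where
  Adj x y := match x, y with
    | .inl u, .inl v => G.Adj u v
    | .inl u, .inr i => u ∈ att A (c i)
    | .inr i, .inl u => u ∈ att A (c i)
    | .inr i, .inr j => X.Adj i j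
  symm := ⟨by
    rintro (u | i) (v | j) h
    · exact (show G.Adj u v from h).symm
    · exact h
    · exact h
    · exact (show X.Adj i j from h).symm⟩
  loopless := ⟨by
    rintro (u | i) h
    · exact G.loopless.irrefl u h
    · exact X.loopless.irrefl i h⟩

variable {V W : Type*} {G : SimpleGraph V} {A : Fin 4 → Set V} {X : SimpleGraph W}
  {c : W → Fin 5} {j k : ℕ}

lemma att_zero {x : W} (h : c x = 0) (u : V) : u ∈ A 0 → u ∈ att A (c x) :=
  fun hu => ⟨0, by rw [h]; rfl, hu⟩

lemma att_one {x : W} (h : c x = 1) (u : V) : u ∈ A 1 → u ∈ att A (c x) :=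
  fun hu => ⟨1, by rw [h]; rfl, hu⟩

lemma att_two {x : W} (h : c x = 2) (u : V) : u ∈ A 2 → u ∈ att A (c x) :=
  fun hu => ⟨2, by rw [h]; rfl, hu⟩

lemma att_three {x : W} (h : c x = 3) (u : V) : u ∈ A 3 → u ∈ att A (c x) :=
  fun hu => ⟨3, by rw [h]; rfl, hu⟩

theorem good_join (hG : Good G k) (hA : Quad G k A) (hX : Plug X c j) :
    Good (join G A X c) (k + j) := by
  classical
  constructor
  · rintro (a | a) (b | b) (d | d) hab hbd had
    · exact hG.1 a b d hab hbd had
    · obtain ⟨i, hi, hai⟩ := (show a ∈ att A (c d) from had)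
      obtain ⟨i', hi', hbi⟩ := (show b ∈ att A (c d) from hbd)
      have : i = i' := Fin.castSucc_injective _ (hi.symm.trans hi')
      subst this
      exact hA.indep i a hai b hbi hab
    · obtain ⟨i, hi, hai⟩ := (show a ∈ att A (c b) from hab)
      obtain ⟨i', hi', hbi⟩ := (show d ∈ att A (c b) from hbd)
      have : i = i' := Fin.castSucc_injective _ (hi.symm.trans hi')
      subst this
      exact hA.indep i a hai d hbi had
    · obtain ⟨i, hi, hai⟩ := (show a ∈ att A (c b) from hab)
      obtain ⟨i', hi', hbi⟩ := (show a ∈ att A (c d) from had)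
      by_cases h : i = i'
      · subst h
        have h4 := hX.lab b d hbd (hi.trans hi'.symm)
        rw [hi] at h4
        exact absurd h4 (by
          intro h5
          have := congrArg Fin.val h5
          simp at this
          omega)
      · exact hA.disj i i' h a hai hbi
    · obtain ⟨i, hi, hai⟩ := (show b ∈ att A (c a) from hab)
      obtain ⟨i', hi', hbi⟩ := (show d ∈ att A (c a) from had)
      have : i = i' := Fin.castSucc_injective _ (hi.symm.trans hi')
      subst this
      exact hA.indep i b hai d hbi hbd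
    · obtain ⟨i, hi, hai⟩ := (show b ∈ att A (c a) from hab)
      obtain ⟨i', hi', hbi⟩ := (show b ∈ att A (c d) from hbd)
      by_cases h : i = i'
      · subst h
        have h4 := hX.lab a d had (hi.trans hi'.symm)
        rw [hi] at h4
        exact absurd h4 (by
          intro h5
          have := congrArg Fin.val h5
          simp at this
          omega)
      · exact hA.disj i i' h b hai hbi
    · obtain ⟨i, hi, hai⟩ := (show d ∈ att A (c b) from hbd)
      obtain ⟨i', hi', hbi⟩ := (show d ∈ att A (c a) from had)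
      by_cases h : i = i'
      · subst h
        have h4 := hX.lab a b hab (hi'.trans hi.symm)
        rw [hi'] at h4
        exact absurd h4 (by
          intro h5
          have := congrArg Fin.val h5
          simp at this
          omega)
      · exact hA.disj i i' h d hai hbi
    · exact hX.tri a b d hab hbd had
  · intro s hs
    have hcard : s.toLeft.card + s.toRight.card = s.card := Finset.card_toLeft_add_card_toRight
    have hL : ∀ x ∈ s.toLeft, ∀ y ∈ s.toLeft, ¬ G.Adj x y := by
      intro x hx y hy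
      exact hs _ (Finset.mem_toLeft.1 hx) _ (Finset.mem_toLeft.1 hy)
    have hR : ∀ x ∈ s.toRight, ∀ y ∈ s.toRight, ¬ X.Adj x y := by
      intro x hx y hy
      exact hs _ (Finset.mem_toRight.1 hx) _ (Finset.mem_toRight.1 hy)
    have hLR : ∀ i ∈ s.toRight, ∀ x ∈ s.toLeft, x ∉ att A (c i) := by
      intro i hi x hx
      exact hs _ (Finset.mem_toLeft.1 hx) _ (Finset.mem_toRight.1 hi)
    have hLk := hG.2 _ hL
    obtain ⟨h0, h1, h2⟩ := hX.ind _ hR
    by_cases hA1 : (∃ x ∈ s.toRight, c x = 0) ∧ ∃ x ∈ s.toRight, c x = 1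
    · obtain ⟨⟨x0, hx0, hc0⟩, x1, hx1, hc1⟩ := hA1
      have hm0 : ∀ u ∈ s.toLeft, u ∉ A 0 := fun u hu h => hLR x0 hx0 u hu (att_zero hc0 u h)
      have hm1 : ∀ u ∈ s.toLeft, u ∉ A 1 := fun u hu h => hLR x1 hx1 u hu (att_one hc1 u h)
      have hf := hA.fst _ hL (fun u hu => ⟨hm0 u hu, hm1 u hu⟩)
      by_cases hA2 : (∃ x ∈ s.toRight, c x = 2) ∧ ∃ x ∈ s.toRight, c x = 3
      · obtain ⟨⟨x2, hx2, hc2⟩, x3, hx3, hc3⟩ := hA2
        have ha := hA.all _ hL (fun u hu => ⟨hm0 u hu, hm1 u hu,
          fun h => hLR x2 hx2 u hu (att_two hc2 u h), fun h => hLR x3 hx3 u hu (att_three hc3 u h)⟩)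
        omega
      · have := h1 (fun h => hA2 h.2)
        omega
    · by_cases hA2 : (∃ x ∈ s.toRight, c x = 2) ∧ ∃ x ∈ s.toRight, c x = 3
      · have := h1 (fun h => hA1 h.1)
        obtain ⟨⟨x2, hx2, hc2⟩, x3, hx3, hc3⟩ := hA2
        have hf := hA.snd _ hL (fun u hu => ⟨fun h => hLR x2 hx2 u hu (att_two hc2 u h),
          fun h => hLR x3 hx3 u hu (att_three hc3 u h)⟩)
        omega
      · have := h0 hA1 hA2
        omega

/-- The consequence for the Ramsey numbers. -/
theorem R_add_ge [Fintype W] (hX : Plug X c j) {k : ℕ} (hk : 4 ≤ k) :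
    R k + Fintype.card W ≤ R (k + j) := by
  have h9 := nine_le_R_four
  have hpos : 9 ≤ R k := h9.trans (R_mono hk)
  obtain ⟨G, hG⟩ := exists_good (k := k) (n := R k - 1) (by omega)
  have hq : ∃ A : Fin 4 → Set (Fin (R k - 1)), Quad G k A := by
    rcases hk.eq_or_lt with rfl | hk
    · exact quad_of_eight hG (by simp; omega)
    · apply quad_of_eleven hG
      have h13 : R 4 + 4 ≤ R 5 := R_five_ge
      have h5 : R 5 ≤ R k := R_mono hk
      simp
      omega
  obtain ⟨A, hA⟩ := hq
  have := (good_join hG hA hX).card_lt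
  simp at this
  omega

end Pool.Agent.H32.RJ4
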