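import Pool.Agent.H32.RJ4.Chk

/-!
# Three finite graphs and the three inequalities

`R(3, k + 3) ≥ R(3, k) + 13`, `R(3, k + 4) ≥ R(3, k) + 18` and `R(3, k + 5) ≥ R(3, k) + 23` for
all `k ≥ 4`.
-/

namespace Pool.Agent.H32.RJ4

open Finset SimpleGraph Pool.Agent.H41.RamseyStep

/-- The neighbourhoods (bit masks) in the graph on 13 vertices. -/
def adj13 : ℕ → ℕ := fun i =>
  [4290, 785, 3456, 4544, 1186, 2832, 2569, 29, 46, 1122, 4628, 4196, 3081].getD i 0

/-- The labels of the graph on 13 vertices. -/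
def lab13 : ℕ → ℕ := fun i => [3, 2, 4, 2, 0, 3, 0, 1, 0, 1, 3, 2, 1].getD i 4

/-- The neighbourhoods (bit masks) in the graph on 18 vertices. -/
def adj18 : ℕ → ℕ := fun i =>
  [84100, 28960, 37409, 123968, 84512, 1174, 6792, 8545, 99458, 132180, 2856, 42065, 196678,
    133258, 131099, 133388, 4377, 61952].getD i 0

/-- The labels of the graph on 18 vertices. -/
def lab18 : ℕ → ℕ := fun i =>
  [1, 2, 0, 4, 0, 1, 1, 3, 0, 2, 3, 4, 3, 0, 3, 2, 2, 1].getD i 4

/-- The neighbourhoods (bit masks) in the graph on 23 vertices. -/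
def adj23 : ℕ → ℕ := fun i =>
  [805920, 43680, 1196544, 2299136, 6817056, 1183763, 2859008, 5784578, 59416, 852998, 33433,
    7340291, 4751400, 262466, 2163077, 1054018, 5259848, 4194412, 7348737, 4817, 362660, 280664,
    465040].getD i 0

/-- The labels of the graph on 23 vertices. -/
def lab23 : ℕ → ℕ := fun i =>
  [0, 0, 0, 0, 0, 1, 1, 1, 1, 1, 2, 2, 2, 2, 2, 3, 3, 3, 3, 3, 4, 4, 4].getD i 4

lemma plug13 : ∃ (X : SimpleGraph (Fin 13)) (c : Fin 13 → Fin 5), Plug X c 3 :=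
  ⟨_, _, plug_of_check (m := 13) (adj := adj13) (lab := lab13) (j := 3)
    (by decide +kernel) (by decide +kernel) (by decide +kernel) (by decide +kernel)
    (by decide +kernel) (by decide +kernel)⟩

lemma plug18 : ∃ (X : SimpleGraph (Fin 18)) (c : Fin 18 → Fin 5), Plug X c 4 :=
  ⟨_, _, plug_of_check (m := 18) (adj := adj18) (lab := lab18) (j := 4)
    (by decide +kernel) (by decide +kernel) (by decide +kernel) (by decide +kernel)
    (by decide +kernel) (by decide +kernel)⟩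

lemma plug23 : ∃ (X : SimpleGraph (Fin 23)) (c : Fin 23 → Fin 5), Plug X c 5 :=
  ⟨_, _, plug_of_check (m := 23) (adj := adj23) (lab := lab23) (j := 5)
    (by decide +kernel) (by decide +kernel) (by decide +kernel) (by decide +kernel)
    (by decide +kernel) (by decide +kernel)⟩

/-- `R(3, k + 3) ≥ R(3, k) + 13` for all `k ≥ 4`. -/
theorem R_add_three {k : ℕ} (hk : 4 ≤ k) : R k + 13 ≤ R (k + 3) := by
  obtain ⟨X, c, h⟩ := plug13
  simpa using R_add_ge h hk

/-- `R(3, k + 4) ≥ R(3, k) + 18` for all `k ≥ 4`. -/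
theorem R_add_four {k : ℕ} (hk : 4 ≤ k) : R k + 18 ≤ R (k + 4) := by
  obtain ⟨X, c, h⟩ := plug18
  simpa using R_add_ge h hk

/-- `R(3, k + 5) ≥ R(3, k) + 23` for all `k ≥ 4`. -/
theorem R_add_five {k : ℕ} (hk : 4 ≤ k) : R k + 23 ≤ R (k + 5) := by
  obtain ⟨X, c, h⟩ := plug23
  simpa using R_add_ge h hk

end Pool.Agent.H32.RJ4
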