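import Pool.Agent.H41.RamseyMain

/-!
# Four disjoint independent sets in every extremal graph

Every triangle-free graph `G` with all independent sets of size `< k` and at least eleven vertices
(eight vertices if `k = 4`) has four pairwise disjoint independent sets `A 0, A 1, A 2, A 3` such
that an independent set which misses `A 0` and `A 1`, or misses `A 2` and `A 3`, has size at most
`k - 2`, and one which misses all four has size at most `k - 3`.
-/

namespace Pool.Agent.H32.RJ4

open Finset SimpleGraph Pool.Agent.H41.RamseyStep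

/-- Four pairwise disjoint independent sets, in two pairs, which lower the independence number. -/
structure Quad {V : Type*} (G : SimpleGraph V) (k : ℕ) (A : Fin 4 → Set V) : Prop where
  indep : ∀ i, ∀ u ∈ A i, ∀ v ∈ A i, ¬ G.Adj u v
  disj : ∀ i j, i ≠ j → ∀ u ∈ A i, u ∉ A j
  fst : ∀ I : Finset V, (∀ x ∈ I, ∀ y ∈ I, ¬ G.Adj x y) →
    (∀ x ∈ I, x ∉ A 0 ∧ x ∉ A 1) → I.card + 1 < k
  snd : ∀ I : Finset V, (∀ x ∈ I, ∀ y ∈ I, ¬ G.Adj x y) →
    (∀ x ∈ I, x ∉ A 2 ∧ x ∉ A 3) → I.card + 1 < k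
  all : ∀ I : Finset V, (∀ x ∈ I, ∀ y ∈ I, ¬ G.Adj x y) →
    (∀ x ∈ I, x ∉ A 0 ∧ x ∉ A 1 ∧ x ∉ A 2 ∧ x ∉ A 3) → I.card + 2 < k

section

variable {V : Type*} {G : SimpleGraph V} {k : ℕ}

/-- An independent set that misses the closed neighbourhoods of two non-adjacent vertices. -/
lemma add_two (hG : Good G k) {a b : V} (hab : a ≠ b) (hnab : ¬ G.Adj a b)
    (I : Finset V) (hI : ∀ x ∈ I, ∀ y ∈ I, ¬ G.Adj x y)
    (ha : a ∉ I) (hb : b ∉ I) (hna : ∀ x ∈ I, ¬ G.Adj a x) (hnb : ∀ x ∈ I, ¬ G.Adj b x) :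
    I.card + 2 < k := by
  classical
  have h := hG.2 (insert a (insert b I)) (by
    intro x hx y hy hxy
    simp only [Finset.mem_insert] at hx hy
    rcases hx with rfl | rfl | hx <;> rcases hy with rfl | rfl | hy
    · exact G.loopless.irrefl _ hxy
    · exact hnab hxy
    · exact hna y hy hxy
    · exact hnab hxy.symm
    · exact G.loopless.irrefl _ hxy
    · exact hnb y hy hxy
    · exact hna x hx hxy.symm
    · exact hnb x hx hxy.symm
    · exact hI x hx y hy hxy)
  rw [Finset.card_insert_of_notMem (by simp [hab, ha]), Finset.card_insert_of_notMem hb] at h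
  omega

/-- Build a `Quad` from four sets given one by one. -/
lemma quad_mk {A₁ A₂ B₁ B₂ : Set V}
    (hA₁ : ∀ u ∈ A₁, ∀ v ∈ A₁, ¬ G.Adj u v) (hA₂ : ∀ u ∈ A₂, ∀ v ∈ A₂, ¬ G.Adj u v)
    (hB₁ : ∀ u ∈ B₁, ∀ v ∈ B₁, ¬ G.Adj u v) (hB₂ : ∀ u ∈ B₂, ∀ v ∈ B₂, ¬ G.Adj u v)
    (hdA : ∀ x ∈ A₁, x ∉ A₂) (hdB : ∀ x ∈ B₁, x ∉ B₂)
    (hdisj : ∀ x, (x ∈ A₁ ∨ x ∈ A₂) → (x ∈ B₁ ∨ x ∈ B₂) → False)
    (hA : ∀ I : Finset V, (∀ x ∈ I, ∀ y ∈ I, ¬ G.Adj x y) →
      (∀ x ∈ I, x ∉ A₁ ∧ x ∉ A₂) → I.card + 1 < k)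
    (hB : ∀ I : Finset V, (∀ x ∈ I, ∀ y ∈ I, ¬ G.Adj x y) →
      (∀ x ∈ I, x ∉ B₁ ∧ x ∉ B₂) → I.card + 1 < k)
    (hAB : ∀ I : Finset V, (∀ x ∈ I, ∀ y ∈ I, ¬ G.Adj x y) →
      (∀ x ∈ I, x ∉ A₁ ∧ x ∉ A₂ ∧ x ∉ B₁ ∧ x ∉ B₂) → I.card + 2 < k) :
    ∃ A : Fin 4 → Set V, Quad G k A := by
  refine ⟨![A₁, A₂, B₁, B₂], ?_, ?_, hA, hB, hAB⟩
  · intro i
    fin_cases i
    · exact hA₁
    · exact hA₂
    · exact hB₁
    · exact hB₂
  · intro i j hij u hu hu'
    fin_cases i <;> fin_cases j <;> simp at hij hu hu' <;>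
      first
        | exact hdA u hu hu'
        | exact hdA u hu' hu
        | exact hdB u hu hu'
        | exact hdB u hu' hu
        | exact hdisj u (Or.inl hu) (Or.inl hu')
        | exact hdisj u (Or.inl hu) (Or.inr hu')
        | exact hdisj u (Or.inr hu) (Or.inl hu')
        | exact hdisj u (Or.inr hu) (Or.inr hu')
        | exact hdisj u (Or.inl hu') (Or.inl hu)
        | exact hdisj u (Or.inl hu') (Or.inr hu)
        | exact hdisj u (Or.inr hu') (Or.inl hu)
        | exact hdisj u (Or.inr hu') (Or.inr hu)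

lemma disj_pair (a b d : V) (had : G.Adj a d) :
    ∀ x ∈ {x | G.Adj a x ∧ x ≠ d}, x ∉ {x | (G.Adj b x ∧ ¬ G.Adj a x) ∨ x = a} := by
  rintro x ⟨h1, h2⟩ (⟨h3, h4⟩ | h3)
  · exact h4 h1
  · rw [h3] at h1
    exact G.loopless.irrefl _ h1

/-- Case 1: `G` contains a four-cycle. -/
lemma quad_of_C4 (hG : Good G k) {a b c d : V} (hab : a ≠ b) (hcd : c ≠ d)
    (hac : G.Adj a c) (hbc : G.Adj b c) (had : G.Adj a d) (hbd : G.Adj b d) :
    ∃ A : Fin 4 → Set V, Quad G k A := by
  have hT := hG.1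
  have hnab : ¬ G.Adj a b := fun h => hT a b d h hbd had
  refine quad_mk (indep_nbr hG a d) (indep_nbr' hG a b) (indep_nbr hG d a)
    (indep_nbr' hG d c) (disj_pair a b d had) (disj_pair d c a had.symm) ?_
    (reducer_two hG hab had hbd) (reducer_two hG (k := k) hcd.symm had.symm hac.symm) ?_
  · rintro x (⟨h1, h2⟩ | ⟨h1, h2⟩ | rfl) (⟨h3, h4⟩ | ⟨h3, h4⟩ | rfl)
    · exact hT a d x had h3 h1
    · exact hT a c x hac h3 h1
    · exact h2 rfl
    · exact hT b d x hbd h3 h1
    · exact hT b c x hbc h3 h1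
    · exact h2 had
    · exact h4 rfl
    · exact h4 had.symm
    · exact G.loopless.irrefl _ had
  · intro I hI hav
    have haI : a ∉ I := fun h => (hav a h).2.1 (Or.inr rfl)
    have hdI : d ∉ I := fun h => (hav d h).2.2.2 (Or.inr rfl)
    have hbI : b ∉ I := fun h => (hav b h).2.2.1 ⟨hbd.symm, hab.symm⟩
    have hna : ∀ x ∈ I, ¬ G.Adj a x := by
      intro x hx hax
      by_cases hxd : x = d
      · exact hdI (hxd ▸ hx)
      · exact (hav x hx).1 ⟨hax, hxd⟩
    have hnb : ∀ x ∈ I, ¬ G.Adj b x := by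
      intro x hx hbx
      exact (hav x hx).2.1 (Or.inl ⟨hbx, hna x hx⟩)
    exact add_two hG hab hnab I hI haI hbI hna hnb

/-- Case 2: `G` has two non-adjacent vertices without a common neighbour. -/
lemma quad_of_far (hG : Good G k) {g g' : V} (hne : g ≠ g') (hadj : ¬ G.Adj g g')
    (hno : ∀ x, G.Adj g x → ¬ G.Adj g' x) :
    ∃ A : Fin 4 → Set V, Quad G k A := by
  refine quad_mk (A₁ := {x | G.Adj g x}) (A₂ := {g}) (B₁ := {x | G.Adj g' x})
    (B₂ := {g'}) ?_ ?_ ?_ ?_ ?_ ?_ ?_ (reducer_one hG) (reducer_one hG) ?_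
  · exact fun u hu v hv huv => hG.1 g u v hu huv hv
  · rintro u rfl v rfl; exact G.loopless.irrefl _
  · exact fun u hu v hv huv => hG.1 g' u v hu huv hv
  · rintro u rfl v rfl; exact G.loopless.irrefl _
  · intro x hx hx'
    rw [Set.mem_singleton_iff] at hx'
    rw [hx'] at hx
    exact G.loopless.irrefl _ hx
  · intro x hx hx'
    rw [Set.mem_singleton_iff] at hx'
    rw [hx'] at hx
    exact G.loopless.irrefl _ hx
  · rintro x (h1 | h1) (h2 | h2)
    · exact hno x h1 h2
    · simp only [Set.mem_singleton_iff] at h2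
      subst h2
      exact hadj h1
    · simp only [Set.mem_singleton_iff] at h1
      subst h1
      exact hadj (show G.Adj g' x from h2).symm
    · simp only [Set.mem_singleton_iff] at h1 h2
      exact hne (h1.symm.trans h2)
  · intro I hI hav
    exact add_two hG hne hadj I hI (fun h => (hav g h).2.1 rfl) (fun h => (hav g' h).2.2.2 rfl)
      (fun x hx h => (hav x hx).1 h) (fun x hx h => (hav x hx).2.2.1 h)

/-- Case 3: `G` has no four-cycle and has a vertex of degree at least four. -/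
lemma quad_of_star (hG : Good G k)
    (hC4 : ∀ a b c d, a ≠ b → G.Adj a c → G.Adj b c → G.Adj a d → G.Adj b d → c = d)
    {d a b a' b' : V} (h1 : G.Adj a d) (h2 : G.Adj b d) (h3 : G.Adj a' d) (h4 : G.Adj b' d)
    (hab : a ≠ b) (haa : a ≠ a') (hab' : a ≠ b') (hba : b ≠ a') (hbb : b ≠ b') (ha'b' : a' ≠ b') :
    ∃ A : Fin 4 → Set V, Quad G k A := by
  classical
  have hT := hG.1
  refine quad_mk (indep_nbr hG a d) (indep_nbr' hG a b) (indep_nbr hG a' d)
    (indep_nbr' hG a' b') (disj_pair a b d h1) (disj_pair a' b' d h3) ?_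
    (reducer_two hG hab h1 h2) (reducer_two hG ha'b' h3 h4) ?_
  · rintro x (⟨h5, h6⟩ | ⟨h5, h6⟩ | rfl) (⟨h7, h8⟩ | ⟨h7, h8⟩ | rfl)
    · exact h6 (hC4 a a' x d haa h5 h7 h1 h3)
    · exact h6 (hC4 a b' x d hab' h5 h7 h1 h4)
    · exact hT a x d h5 h3 h1
    · exact h8 (hC4 b a' x d hba h5 h7 h2 h3)
    · have := hC4 b b' x d hbb h5 h7 h2 h4
      subst this
      exact h6 h1
    · exact hT b x d h5 h3 h2
    · exact hT a' x d h7 h1 h3
    · exact hT b' x d h7 h1 h4
    · exact haa rfl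
  · intro I hI hav
    have haI : a ∉ I := fun h => (hav a h).2.1 (Or.inr rfl)
    have haI' : a' ∉ I := fun h => (hav a' h).2.2.2 (Or.inr rfl)
    have hna : ∀ x ∈ I, G.Adj a x → x = d := by
      intro x hx hax
      by_contra hxd
      exact (hav x hx).1 ⟨hax, hxd⟩
    have hna' : ∀ x ∈ I, G.Adj a' x → x = d := by
      intro x hx hax
      by_contra hxd
      exact (hav x hx).2.2.1 ⟨hax, hxd⟩
    have hnb : ∀ x ∈ I, G.Adj b x → x = d := by
      intro x hx hbx
      by_cases hax : G.Adj a x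
      · exact hna x hx hax
      · exact absurd (Or.inl ⟨hbx, hax⟩) (hav x hx).2.1
    by_cases hdI : d ∈ I
    · -- replace `d` by `a, a', b`
      have hbI : b ∉ I := fun h => hI b h d hdI h2
      have hnaa : ¬ G.Adj a a' := fun h => hT a a' d h h3 h1
      have hnab : ¬ G.Adj a b := fun h => hT a b d h h2 h1
      have hnba : ¬ G.Adj b a' := fun h => hT b a' d h h3 h2
      have h := hG.2 (insert a (insert a' (insert b (I.erase d)))) (by
        intro x hx y hy hxy
        simp only [Finset.mem_insert, Finset.mem_erase] at hx hy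
        rcases hx with rfl | rfl | rfl | ⟨hxd, hx⟩ <;> rcases hy with rfl | rfl | rfl | ⟨hyd, hy⟩
        · exact G.loopless.irrefl _ hxy
        · exact hnaa hxy
        · exact hnab hxy
        · exact hyd (hna y hy hxy)
        · exact hnaa hxy.symm
        · exact G.loopless.irrefl _ hxy
        · exact hnba hxy.symm
        · exact hyd (hna' y hy hxy)
        · exact hnab hxy.symm
        · exact hnba hxy
        · exact G.loopless.irrefl _ hxy
        · exact hyd (hnb y hy hxy)
        · exact hxd (hna x hx hxy.symm)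
        · exact hxd (hna' x hx hxy.symm)
        · exact hxd (hnb x hx hxy.symm)
        · exact hI x hx y hy hxy)
      rw [Finset.card_insert_of_notMem (by simp [haa, hab, haI]),
        Finset.card_insert_of_notMem (by simp [hba.symm, haI']),
        Finset.card_insert_of_notMem (by simp [hbI]), Finset.card_erase_of_mem hdI] at h
      have : 0 < I.card := Finset.card_pos.2 ⟨d, hdI⟩
      omega
    · exact add_two hG haa (fun h => hT a a' d h h3 h1) I hI haI haI'
        (fun x hx h => hdI (hna x hx h ▸ hx)) (fun x hx h => hdI (hna' x hx h ▸ hx))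

end

section

variable {V : Type*} [Fintype V] {G : SimpleGraph V} {k : ℕ}

open Classical in
/-- The structure of the graphs without a `Quad`. -/
lemma structure_of_not_quad (hG : Good G k) (hns : ¬ ∃ A : Fin 4 → Set V, Quad G k A) :
    (∀ a b c d, a ≠ b → G.Adj a c → G.Adj b c → G.Adj a d → G.Adj b d → c = d) ∧
    (∀ d, (univ.filter (fun x => G.Adj d x)).card ≤ 3) ∧
    (∀ v, Fintype.card V ≤ 1 + 3 * (univ.filter (fun x => G.Adj v x)).card) := by
  have hC4 : ∀ a b c d, a ≠ b → G.Adj a c → G.Adj b c → G.Adj a d → G.Adj b d → c = d := by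
    intro a b c d hab h1 h2 h3 h4
    by_contra hcd
    exact hns (quad_of_C4 hG hab hcd h1 h2 h3 h4)
  have hdeg : ∀ d, (univ.filter (fun x => G.Adj d x)).card ≤ 3 := by
    intro d
    by_contra h
    push Not at h
    obtain ⟨a, b, a', b', ha, hb, ha', hb', h1, h2, h3, h4, h5, h6⟩ := exists_four_of_card h
    simp only [Finset.mem_filter, Finset.mem_univ, true_and] at ha hb ha' hb'
    exact hns (quad_of_star hG hC4 ha.symm hb.symm ha'.symm hb'.symm h1 h2 h3 h4 h5 h6)
  refine ⟨hC4, hdeg, ?_⟩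
  intro v
  have hsub : (univ : Finset V) ⊆ insert v ((univ.filter (fun x => G.Adj v x)) ∪
      (univ.filter (fun x => G.Adj v x)).biUnion
        (fun u => (univ.filter (fun x => G.Adj u x)).erase v)) := by
    intro w _
    by_cases hwv : w = v
    · simp [hwv]
    by_cases hadj : G.Adj v w
    · simp [hadj]
    have : ∃ x, G.Adj v x ∧ G.Adj w x := by
      by_contra hno
      push Not at hno
      exact hns (quad_of_far hG (Ne.symm hwv) hadj hno)
    obtain ⟨x, hx1, hx2⟩ := this
    simp only [Finset.mem_insert, Finset.mem_union, Finset.mem_biUnion, Finset.mem_filter,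
      Finset.mem_univ, true_and, Finset.mem_erase]
    exact Or.inr (Or.inr ⟨x, hx1, hwv, hx2.symm⟩)
  have h1 := Finset.card_le_card hsub
  rw [Finset.card_univ] at h1
  have h2 := Finset.card_insert_le v ((univ.filter (fun x => G.Adj v x)) ∪
      (univ.filter (fun x => G.Adj v x)).biUnion
        (fun u => (univ.filter (fun x => G.Adj u x)).erase v))
  have h3 := Finset.card_union_le (univ.filter (fun x => G.Adj v x))
      ((univ.filter (fun x => G.Adj v x)).biUnion
        (fun u => (univ.filter (fun x => G.Adj u x)).erase v))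
  have h4 : ((univ.filter (fun x => G.Adj v x)).biUnion
        (fun u => (univ.filter (fun x => G.Adj u x)).erase v)).card ≤
      (univ.filter (fun x => G.Adj v x)).card * 2 := by
    apply Finset.card_biUnion_le_card_mul
    intro u hu
    simp only [Finset.mem_filter, Finset.mem_univ, true_and] at hu
    have hvu : v ∈ univ.filter (fun x => G.Adj u x) := by
      simp only [Finset.mem_filter, Finset.mem_univ, true_and]
      exact hu.symm
    rw [Finset.card_erase_of_mem hvu]
    have := hdeg u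
    omega
  omega

/-- If `G` is good for `k` and has at least eleven vertices, then it has a `Quad`. -/
lemma quad_of_eleven (hG : Good G k) (hV : 11 ≤ Fintype.card V) :
    ∃ A : Fin 4 → Set V, Quad G k A := by
  classical
  by_contra hns
  obtain ⟨hC4, hdeg, hcard⟩ := structure_of_not_quad hG hns
  have : Nonempty V := Fintype.card_pos_iff.1 (by omega)
  obtain ⟨v⟩ := this
  have h1 := hcard v
  have h2 := hdeg v
  omega

/-- If `G` is good for `4` and has at least eight vertices, then it has a `Quad`. -/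
lemma quad_of_eight (hG : Good G 4) (hV : 8 ≤ Fintype.card V) :
    ∃ A : Fin 4 → Set V, Quad G 4 A := by
  classical
  by_contra hns
  obtain ⟨hC4, hdeg, hcard⟩ := structure_of_not_quad hG hns
  have : Nonempty V := Fintype.card_pos_iff.1 (by omega)
  obtain ⟨v⟩ := this
  have hdeg3 : ∀ u, (univ.filter (fun x => G.Adj u x)).card = 3 := by
    intro u
    have h1 := hcard u
    have h2 := hdeg u
    omega
  obtain ⟨u₁, u₂, u₃, h12, h13, h23, hN⟩ := Finset.card_eq_three.1 (hdeg3 v)
  have hu : ∀ x, G.Adj v x ↔ x = u₁ ∨ x = u₂ ∨ x = u₃ := by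
    intro x
    have : x ∈ univ.filter (fun x => G.Adj v x) ↔ x ∈ ({u₁, u₂, u₃} : Finset V) := by rw [hN]
    simpa using this
  have hv1 : G.Adj v u₁ := (hu u₁).2 (by simp)
  have hv2 : G.Adj v u₂ := (hu u₂).2 (by simp)
  have hv3 : G.Adj v u₃ := (hu u₃).2 (by simp)
  have hvu : v ∈ univ.filter (fun x => G.Adj u₁ x) := by
    simp only [Finset.mem_filter, Finset.mem_univ, true_and]
    exact hv1.symm
  have h2 : ((univ.filter (fun x => G.Adj u₁ x)).erase v).card = 2 := by
    rw [Finset.card_erase_of_mem hvu, hdeg3]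
  obtain ⟨x, y, hxy, hM⟩ := Finset.card_eq_two.1 h2
  have hmem : ∀ z, (z ≠ v ∧ G.Adj u₁ z) ↔ (z = x ∨ z = y) := by
    intro z
    have : z ∈ (univ.filter (fun x => G.Adj u₁ x)).erase v ↔ z ∈ ({x, y} : Finset V) := by rw [hM]
    simpa using this
  have hx := (hmem x).2 (Or.inl rfl)
  have hy := (hmem y).2 (Or.inr rfl)
  have hT := hG.1
  have key : ∀ z u, z ≠ v → G.Adj u₁ z → G.Adj v u → u ≠ u₁ → ¬ G.Adj z u := by
    intro z u hzv h1z hvu' hne hzu
    exact hzv (hC4 u₁ u z v hne.symm h1z hzu.symm hv1.symm hvu'.symm)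
  have hneq : ∀ z u, G.Adj u₁ z → G.Adj v u → z ≠ u := by
    rintro z u h1z hvu' rfl
    exact hT v u₁ z hv1 h1z hvu'
  have := hG.2 {x, y, u₂, u₃} (by
    intro p hp q hq hpq
    simp only [Finset.mem_insert, Finset.mem_singleton] at hp hq
    rcases hp with rfl | rfl | rfl | rfl <;> rcases hq with rfl | rfl | rfl | rfl
    · exact G.loopless.irrefl _ hpq
    · exact hT u₁ p q hx.2 hpq hy.2
    · exact key p q hx.1 hx.2 hv2 h12.symm hpq
    · exact key p q hx.1 hx.2 hv3 h13.symm hpq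
    · exact hT u₁ p q hy.2 hpq hx.2
    · exact G.loopless.irrefl _ hpq
    · exact key p q hy.1 hy.2 hv2 h12.symm hpq
    · exact key p q hy.1 hy.2 hv3 h13.symm hpq
    · exact key q p hx.1 hx.2 hv2 h12.symm hpq.symm
    · exact key q p hy.1 hy.2 hv2 h12.symm hpq.symm
    · exact G.loopless.irrefl _ hpq
    · exact hT v p q hv2 hpq hv3
    · exact key q p hx.1 hx.2 hv3 h13.symm hpq.symm
    · exact key q p hy.1 hy.2 hv3 h13.symm hpq.symm
    · exact hT v p q hv3 hpq hv2
    · exact G.loopless.irrefl _ hpq)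
  rw [Finset.card_insert_of_notMem, Finset.card_insert_of_notMem, Finset.card_insert_of_notMem,
    Finset.card_singleton] at this
  · omega
  · simpa using h23
  · simp only [Finset.mem_insert, Finset.mem_singleton, not_or]
    exact ⟨hneq _ _ hy.2 hv2, hneq _ _ hy.2 hv3⟩
  · simp only [Finset.mem_insert, Finset.mem_singleton, not_or]
    exact ⟨hxy, hneq _ _ hx.2 hv2, hneq _ _ hx.2 hv3⟩

end

end Pool.Agent.H32.RJ4
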