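import Pool.Agent.H45.RM.Att
import Pool.Agent.H45.RM.Gr2

/-!
# The inequality `R(3,k+j) ≥ R(3,k) + R(3,j+1) + j` in a wide range

It holds for all `k` and `j ≥ 1` with `R(3,j-1) + 4k < R(3,k)`.
-/

set_option autoImplicit false

namespace Pool.Agent.H32.RJ4

open Finset SimpleGraph Pool.Agent.H41.RamseyStep

section gains

variable {V : Type*} {G : SimpleGraph V} {k : ℕ}

/-- Two independent sets without edges between them. -/
lemma gain_zero (hG : Good G k) (I F : Finset V) (hI : ∀ x ∈ I, ∀ y ∈ I, ¬ G.Adj x y)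
    (hF : ∀ x ∈ F, ∀ y ∈ F, ¬ G.Adj x y) (hIF : ∀ v ∈ F, ∀ u ∈ I, u ≠ v ∧ ¬ G.Adj v u) :
    I.card + F.card < k := by
  classical
  have h := hG.2 (I ∪ F) (by
    intro x hx y hy hxy
    rcases Finset.mem_union.1 hx with hx | hx <;> rcases Finset.mem_union.1 hy with hy | hy
    · exact hI x hx y hy hxy
    · exact (hIF y hy x hx).2 hxy.symm
    · exact (hIF x hx y hy).2 hxy
    · exact hF x hx y hy hxy)
  rwa [Finset.card_union_of_disjoint (Finset.disjoint_left.2 fun x hx hx' =>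
    (hIF x hx' x hx).1 rfl)] at h

/-- The exchange at a vertex `d` with the neighbours `a` and `b`. -/
lemma gain_star (hG : Good G k) {a b d : V} (hab : a ≠ b) (had : G.Adj a d) (hbd : G.Adj b d)
    (I F : Finset V) (hI : ∀ x ∈ I, ∀ y ∈ I, ¬ G.Adj x y)
    (hF : ∀ x ∈ F, ∀ y ∈ F, ¬ G.Adj x y) (hIF : ∀ v ∈ F, ∀ u ∈ I, u ≠ v ∧ ¬ G.Adj v u)
    (hFa : ∀ v ∈ F, v ≠ a ∧ v ≠ b ∧ ¬ G.Adj a v ∧ ¬ G.Adj b v)
    (h1 : ∀ u ∈ I, ¬ (G.Adj a u ∧ u ≠ d))
    (h2 : ∀ u ∈ I, ¬ ((G.Adj b u ∧ ¬ G.Adj a u) ∨ u = a)) :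
    I.card + F.card + 1 < k := by
  classical
  have haI : a ∉ I := fun h => h2 a h (Or.inr rfl)
  have hna : ∀ x ∈ I, G.Adj a x → x = d := by
    intro x hx hax
    by_contra hxd
    exact h1 x hx ⟨hax, hxd⟩
  have hnb : ∀ x ∈ I, G.Adj b x → x = d := by
    intro x hx hbx
    by_cases hax : G.Adj a x
    · exact hna x hx hax
    · exact absurd (Or.inl ⟨hbx, hax⟩) (h2 x hx)
  have hnab : ¬ G.Adj a b := fun h => hG.1 a b d h hbd had
  by_cases hd : d ∈ I
  · have hbI : b ∉ I := fun h => hI b h d hd hbd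
    have hpos : 0 < I.card := Finset.card_pos.2 ⟨d, hd⟩
    have h := gain_zero hG (insert a (insert b (I.erase d))) F ?_ hF ?_
    · rw [Finset.card_insert_of_notMem (by simp [hab, haI]),
        Finset.card_insert_of_notMem (by simp [hbI]), Finset.card_erase_of_mem hd] at h
      omega
    · intro x hx y hy hxy
      simp only [Finset.mem_insert, Finset.mem_erase] at hx hy
      rcases hx with rfl | rfl | ⟨hxd, hx⟩ <;> rcases hy with rfl | rfl | ⟨hyd, hy⟩
      · exact G.loopless.irrefl _ hxy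
      · exact hnab hxy
      · exact hyd (hna y hy hxy)
      · exact hnab hxy.symm
      · exact G.loopless.irrefl _ hxy
      · exact hyd (hnb y hy hxy)
      · exact hxd (hna x hx hxy.symm)
      · exact hxd (hnb x hx hxy.symm)
      · exact hI x hx y hy hxy
    · intro v hv u hu
      obtain ⟨e1, e2, e3, e4⟩ := hFa v hv
      simp only [Finset.mem_insert, Finset.mem_erase] at hu
      rcases hu with rfl | rfl | ⟨-, hu⟩
      · exact ⟨e1.symm, fun h => e3 h.symm⟩
      · exact ⟨e2.symm, fun h => e4 h.symm⟩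
      · exact hIF v hv u hu
  · have h := gain_zero hG (insert a I) F ?_ hF ?_
    · rw [Finset.card_insert_of_notMem haI] at h
      omega
    · intro x hx y hy hxy
      simp only [Finset.mem_insert] at hx hy
      rcases hx with rfl | hx <;> rcases hy with rfl | hy
      · exact G.loopless.irrefl _ hxy
      · exact hd (hna y hy hxy ▸ hy)
      · exact hd (hna x hx hxy.symm ▸ hx)
      · exact hI x hx y hy hxy
    · intro v hv u hu
      obtain ⟨e1, e2, e3, e4⟩ := hFa v hv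
      simp only [Finset.mem_insert] at hu
      rcases hu with rfl | hu
      · exact ⟨e1.symm, fun h => e3 h.symm⟩
      · exact hIF v hv u hu

end gains

section ext

variable {V Y : Type*} [Fintype V] [Fintype Y] {G : SimpleGraph V} {H : SimpleGraph Y} {k j : ℕ}

/-- Attach `H` with the ends of an edge `u v` and the vertices of an independent set `F`, not
adjacent to `u` and `v`, doubled. -/
lemma ext_edge (v₀ : V) (hG : Good G k) (hH : Good H (j + 1)) {u v : Y} (huv : H.Adj u v) (F : Finset Y)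
    (hF : ∀ x ∈ F, ∀ y ∈ F, ¬ H.Adj x y) (hFu : ∀ x ∈ F, ¬ H.Adj u x ∧ ¬ H.Adj v x)
    (hu : u ∉ F) (hv : v ∉ F) (P : Finset V) (hP : ∀ x ∈ P, ∀ y ∈ P, ¬ G.Adj x y)
    (hPc : P.card = F.card) (A₁ A₂ B₁ B₂ : Set V)
    (hA₁ : ∀ x ∈ A₁, ∀ y ∈ A₁, ¬ G.Adj x y) (hA₂ : ∀ x ∈ A₂, ∀ y ∈ A₂, ¬ G.Adj x y)
    (hB₁ : ∀ x ∈ B₁, ∀ y ∈ B₁, ¬ G.Adj x y) (hB₂ : ∀ x ∈ B₂, ∀ y ∈ B₂, ¬ G.Adj x y)
    (hdisj : ∀ x, (x ∈ A₁ ∨ x ∈ A₂) → (x ∈ B₁ ∨ x ∈ B₂) → False)
    (gA : ∀ I F' : Finset V, (∀ x ∈ I, ∀ y ∈ I, ¬ G.Adj x y) → F' ⊆ P →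
      (∀ v ∈ F', ∀ u ∈ I, u ≠ v ∧ ¬ G.Adj v u) → (∀ x ∈ I, x ∉ A₁ ∧ x ∉ A₂) →
      I.card + F'.card + 1 < k)
    (gB : ∀ I F' : Finset V, (∀ x ∈ I, ∀ y ∈ I, ¬ G.Adj x y) → F' ⊆ P →
      (∀ v ∈ F', ∀ u ∈ I, u ≠ v ∧ ¬ G.Adj v u) → (∀ x ∈ I, x ∉ B₁ ∧ x ∉ B₂) →
      I.card + F'.card + 1 < k) :
    Fintype.card V + Fintype.card Y + (F.card + 2) < R (k + j) := by
  classical
  have e : {x // x ∈ F} ≃ {x // x ∈ P} := Fintype.equivOfCardEq (by simp [hPc])
  let p : Y → V := fun i => if h : i ∈ F then (e ⟨i, h⟩ : V) else v₀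
  have hpF : ∀ i (h : i ∈ F), p i = e ⟨i, h⟩ := fun i h => dif_pos h
  have hpP : ∀ i ∈ F, p i ∈ P := by
    intro i hi
    rw [hpF i hi]
    exact (e ⟨i, hi⟩).2
  have hpinj : ∀ x ∈ F, ∀ y ∈ F, p x = p y → x = y := by
    intro x hx y hy hxy
    rw [hpF x hx, hpF y hy] at hxy
    have := e.injective (Subtype.ext hxy)
    exact congrArg Subtype.val this
  have huv' : u ≠ v := huv.ne
  let C₁ : Y → Set V := fun i => if i = u then A₁ else if i = v then B₁ else {x | G.Adj (p i) x}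
  let C₂ : Y → Set V := fun i => if i = u then A₂ else if i = v then B₂ else {p i}
  have c1u : C₁ u = A₁ := if_pos rfl
  have c2u : C₂ u = A₂ := if_pos rfl
  have c1v : C₁ v = B₁ := by
    change (if v = u then A₁ else if v = v then B₁ else _) = B₁
    rw [if_neg huv'.symm, if_pos rfl]
  have c2v : C₂ v = B₂ := by
    change (if v = u then A₂ else if v = v then B₂ else _) = B₂
    rw [if_neg huv'.symm, if_pos rfl]
  have c1F : ∀ i ∈ F, C₁ i = {x | G.Adj (p i) x} := by
    intro i hi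
    have h1 : i ≠ u := fun h => hu (h ▸ hi)
    have h2 : i ≠ v := fun h => hv (h ▸ hi)
    change (if i = u then A₁ else if i = v then B₁ else _) = _
    rw [if_neg h1, if_neg h2]
  have c2F : ∀ i ∈ F, C₂ i = {p i} := by
    intro i hi
    have h1 : i ≠ u := fun h => hu (h ▸ hi)
    have h2 : i ≠ v := fun h => hv (h ▸ hi)
    change (if i = u then A₂ else if i = v then B₂ else _) = _
    rw [if_neg h1, if_neg h2]
  have hMmem : ∀ i, i ∈ insert u (insert v F) ↔ i = u ∨ i = v ∨ i ∈ F := by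
    intro i
    simp only [Finset.mem_insert]
  have key := Pool.Agent.H45.RM.good_double hG hH (insert u (insert v F)) C₁ C₂ ?_ ?_ ?_ ?_
  · rwa [Finset.card_insert_of_notMem (by simp [huv', hu]), Finset.card_insert_of_notMem hv] at key
  · intro i hi
    rcases (hMmem i).1 hi with rfl | rfl | hi
    · rw [c1u]; exact hA₁
    · rw [c1v]; exact hB₁
    · rw [c1F i hi]
      exact fun x hx y hy hxy => hG.1 (p i) x y hx hxy hy
  · intro i hi
    rcases (hMmem i).1 hi with rfl | rfl | hi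
    · rw [c2u]; exact hA₂
    · rw [c2v]; exact hB₂
    · rw [c2F i hi]
      rintro x rfl y rfl h
      exact G.loopless.irrefl _ h
  · intro i hi l hl hil x hx hx'
    rcases (hMmem i).1 hi with hi | hi | hi <;> rcases (hMmem l).1 hl with hl | hl | hl
    · exact H.loopless.irrefl _ (hi ▸ hl ▸ hil)
    · rw [hi, c1u, c2u] at hx
      rw [hl, c1v, c2v] at hx'
      exact hdisj x hx hx'
    · exact (hFu l hl).1 (hi ▸ hil)
    · rw [hi, c1v, c2v] at hx
      rw [hl, c1u, c2u] at hx'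
      exact hdisj x hx' hx
    · exact H.loopless.irrefl _ (hi ▸ hl ▸ hil)
    · exact (hFu l hl).2 (hi ▸ hil)
    · exact (hFu i hi).1 (hl ▸ hil.symm)
    · exact (hFu i hi).2 (hl ▸ hil.symm)
    · exact hF i hi l hl hil
  · intro I T hT hI hTi hIT
    have gen : ∀ S : Finset Y, S ⊆ F → S ⊆ T → (S.image p) ⊆ P ∧ (S.image p).card = S.card ∧
        ∀ v ∈ S.image p, ∀ u ∈ I, u ≠ v ∧ ¬ G.Adj v u := by
      intro S hSF hST
      refine ⟨?_, ?_, ?_⟩
      · intro x hx
        obtain ⟨i, hi, rfl⟩ := Finset.mem_image.1 hx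
        exact hpP i (hSF hi)
      · apply Finset.card_image_of_injOn
        intro x hx y hy hxy
        exact hpinj x (hSF hx) y (hSF hy) hxy
      · intro x hx y hy
        obtain ⟨i, hi, rfl⟩ := Finset.mem_image.1 hx
        obtain ⟨k1, k2⟩ := hIT i (hST hi) y hy
        rw [c1F i (hSF hi)] at k1
        rw [c2F i (hSF hi)] at k2
        exact ⟨fun h => k2 h, fun h => k1 h⟩
    by_cases huT : u ∈ T
    · have hvT : v ∉ T := fun h => hTi u huT v h huv
      have hS : T.erase u ⊆ F := by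
        intro x hx
        rw [Finset.mem_erase] at hx
        rcases (hMmem x).1 (hT hx.2) with rfl | rfl | h
        · exact absurd rfl hx.1
        · exact absurd hx.2 hvT
        · exact h
      obtain ⟨g1, g2, g3⟩ := gen (T.erase u) hS (Finset.erase_subset _ _)
      have h := gA I _ hI g1 g3 (by
        intro x hx
        have := hIT u huT x hx
        rwa [c1u, c2u] at this)
      rw [g2, Finset.card_erase_of_mem huT] at h
      have : 0 < T.card := Finset.card_pos.2 ⟨u, huT⟩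
      omega
    · by_cases hvT : v ∈ T
      · have hS : T.erase v ⊆ F := by
          intro x hx
          rw [Finset.mem_erase] at hx
          rcases (hMmem x).1 (hT hx.2) with rfl | rfl | h
          · exact absurd hx.2 huT
          · exact absurd rfl hx.1
          · exact h
        obtain ⟨g1, g2, g3⟩ := gen (T.erase v) hS (Finset.erase_subset _ _)
        have h := gB I _ hI g1 g3 (by
          intro x hx
          have := hIT v hvT x hx
          rwa [c1v, c2v] at this)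
        rw [g2, Finset.card_erase_of_mem hvT] at h
        have : 0 < T.card := Finset.card_pos.2 ⟨v, hvT⟩
        omega
      · have hS : T ⊆ F := by
          intro x hx
          rcases (hMmem x).1 (hT hx) with rfl | rfl | h
          · exact absurd hx huT
          · exact absurd hx hvT
          · exact h
        obtain ⟨g1, g2, g3⟩ := gen T hS (Finset.Subset.refl _)
        have h := gain_zero hG I (T.image p) hI (fun x hx y hy => hP x (g1 hx) y (g1 hy)) g3
        rwa [g2] at h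

end ext

section crit

/-- An edge `u v` of an extremal graph and `j - 1` further vertices, such that `u v` is the only
edge between these `j + 1` vertices. -/
theorem crit_edge (j : ℕ) (hj : 1 ≤ j) : ∃ H : SimpleGraph (Fin (R (j + 1) - 1)), Good H (j + 1) ∧
    ∃ (u v : Fin (R (j + 1) - 1)) (F : Finset (Fin (R (j + 1) - 1))), H.Adj u v ∧ u ∉ F ∧ v ∉ F ∧
      F.card = j - 1 ∧ (∀ x ∈ F, ∀ y ∈ F, ¬ H.Adj x y) ∧
      ∀ x ∈ F, ¬ H.Adj u x ∧ ¬ H.Adj v x := by
  classical
  have hR : j + 1 < R (j + 1) := by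
    have h2 : 3 ≤ R 2 := by
      have hG : Good (⊤ : SimpleGraph (Fin 2)) 2 := by
        refine ⟨?_, ?_⟩
        · intro a b c h1 h2 h3
          simp only [SimpleGraph.top_adj] at h1 h2 h3
          omega
        · intro s hs
          by_contra h
          push Not at h
          obtain ⟨a, ha, b, hb, hab⟩ := Finset.one_lt_card.1 (by omega : 1 < s.card)
          exact hs a ha b hb hab
      have := hG.card_lt
      simp only [Fintype.card_fin] at this
      exact this
    have hind : ∀ i, i + 3 ≤ R (i + 2) := by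
      intro i
      induction i with
      | zero => exact h2
      | succ i ih =>
        obtain ⟨G, hG⟩ := exists_good (k := i + 2) (n := R (i + 2) - 1) (by omega)
        have hone : Good (⊥ : SimpleGraph (Fin 1)) (1 + 1) := by
          refine ⟨fun a b c h => by simp at h, fun s _ => ?_⟩
          have := Finset.card_le_univ s
          simp at this
          omega
        have h := Pool.Agent.H45.RM.good_double hG hone (∅ : Finset (Fin 1)) (fun _ => ∅)
          (fun _ => ∅) (by simp) (by simp) (by simp) (by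
            intro I T hT hI _ _
            have h5 : T = ∅ := Finset.subset_empty.1 hT
            rw [h5, Finset.card_empty, Nat.add_zero]
            exact hG.2 I hI)
        simp at h
        have e : i + 1 + 2 = i + 2 + 1 := by omega
        rw [e]
        omega
    obtain ⟨i, rfl⟩ : ∃ i, j = i + 1 := ⟨j - 1, by omega⟩
    have := hind i
    have e : i + 1 + 1 = i + 2 := by omega
    rw [e]
    omega
  obtain ⟨G, hG⟩ := exists_good (k := j + 1) (n := R (j + 1) - 1) (by omega)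
  obtain ⟨H, hH, hmin⟩ := (wellFounded_lt (α := SimpleGraph (Fin (R (j + 1) - 1)))).has_min
    {H : SimpleGraph (Fin (R (j + 1) - 1)) | Good H (j + 1)} ⟨G, hG⟩
  refine ⟨H, hH, ?_⟩
  have hH' : Good H (j + 1) := hH
  obtain ⟨u, v, huv⟩ : ∃ u v, H.Adj u v := by
    by_contra h
    push Not at h
    have h1 := hH'.2 Finset.univ fun x _ y _ => h x y
    rw [Finset.card_univ, Fintype.card_fin] at h1
    omega
  have hlt : H.deleteEdges {s(u, v)} < H := by
    refine lt_of_le_of_ne (SimpleGraph.deleteEdges_le _) fun he => ?_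
    have h1 : (H.deleteEdges {s(u, v)}).Adj u v := by
      rw [he]
      exact huv
    rw [SimpleGraph.deleteEdges_adj] at h1
    exact h1.2 rfl
  have hng : ¬ Good (H.deleteEdges {s(u, v)}) (j + 1) := fun hg => hmin _ hg hlt
  have hT : ∀ a b c, (H.deleteEdges {s(u, v)}).Adj a b → (H.deleteEdges {s(u, v)}).Adj b c →
      (H.deleteEdges {s(u, v)}).Adj a c → False := fun a b c h1 h2 h3 =>
    hH'.1 a b c (hlt.le h1) (hlt.le h2) (hlt.le h3)
  obtain ⟨S, hS, hScard⟩ : ∃ S : Finset (Fin (R (j + 1) - 1)),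
      (∀ x ∈ S, ∀ y ∈ S, ¬ (H.deleteEdges {s(u, v)}).Adj x y) ∧ j + 1 ≤ S.card := by
    by_contra h
    push Not at h
    exact hng ⟨hT, fun s hs => h s hs⟩
  have hs : ∀ x ∈ S, ∀ y ∈ S, H.Adj x y → s(x, y) = s(u, v) := by
    intro x hx y hy hxy
    by_contra hne
    refine hS x hx y hy ?_
    rw [SimpleGraph.deleteEdges_adj]
    exact ⟨hxy, hne⟩
  -- `u` and `v` are in `S`
  have huvS : u ∈ S ∧ v ∈ S := by
    by_contra hno
    have h1 := hH'.2 S (by
      intro x hx y hy hxy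
      have h2 := hs x hx y hy hxy
      rcases Sym2.eq_iff.1 h2 with ⟨e1, e2⟩ | ⟨e1, e2⟩
      · exact hno ⟨e1 ▸ hx, e2 ▸ hy⟩
      · exact hno ⟨e2 ▸ hy, e1 ▸ hx⟩)
    omega
  obtain ⟨F, hFS, hFc⟩ := Finset.exists_subset_card_eq
    (show j - 1 ≤ ((S.erase u).erase v).card by
      rw [Finset.card_erase_of_mem (Finset.mem_erase.2 ⟨huv.ne.symm, huvS.2⟩),
        Finset.card_erase_of_mem huvS.1]
      omega)
  have hF : ∀ x ∈ F, x ≠ v ∧ x ≠ u ∧ x ∈ S := by
    intro x hx
    have := hFS hx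
    simpa only [Finset.mem_erase] using this
  refine ⟨u, v, F, huv, fun h => (hF u h).2.1 rfl, fun h => (hF v h).1 rfl, hFc, ?_, ?_⟩
  · intro x hx y hy hxy
    obtain ⟨a1, a2, a3⟩ := hF x hx
    rcases Sym2.eq_iff.1 (hs x a3 y (hF y hy).2.2 hxy) with ⟨e1, e2⟩ | ⟨e1, e2⟩
    · exact a2 e1
    · exact a1 e1
  · intro x hx
    obtain ⟨a1, a2, a3⟩ := hF x hx
    refine ⟨fun h => ?_, fun h => ?_⟩
    · rcases Sym2.eq_iff.1 (hs u huvS.1 x a3 h) with ⟨e1, e2⟩ | ⟨e1, e2⟩
      · exact a1 e2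
      · exact a2 e2
    · rcases Sym2.eq_iff.1 (hs v huvS.2 x a3 h) with ⟨e1, e2⟩ | ⟨e1, e2⟩
      · exact a1 e2
      · exact a2 e2

end crit

section find

variable {V : Type*} [Fintype V] {G : SimpleGraph V} {k : ℕ}

/-- A large set contains an independent set of `m` vertices. -/
lemma exists_indep (hT : ∀ a b c, G.Adj a b → G.Adj b c → G.Adj a c → False) (m : ℕ)
    (W : Finset V) (hW : R m ≤ W.card) :
    ∃ P : Finset V, P ⊆ W ∧ P.card = m ∧ ∀ x ∈ P, ∀ y ∈ P, ¬ G.Adj x y := by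
  classical
  obtain ⟨W', hW', hc⟩ := Finset.exists_subset_card_eq hW
  have e : Fin (R m) ≃ {x // x ∈ W'} := Fintype.equivOfCardEq (by simp [hc])
  let f : Fin (R m) → V := fun i => (e i : V)
  have hf : Function.Injective f := fun a b h => e.injective (Subtype.ext h)
  have h1 := R_spec m (G.comap f)
  have h2 : ∃ s : Finset (Fin (R m)), (∀ x ∈ s, ∀ y ∈ s, ¬ G.Adj (f x) (f y)) ∧ m ≤ s.card := by
    by_contra h
    push Not at h
    exact h1 ⟨fun a b c hab hbc hac => hT _ _ _ hab hbc hac, fun s hs => h s hs⟩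
  obtain ⟨s, hs, hsc⟩ := h2
  obtain ⟨s', hs', hsc'⟩ := Finset.exists_subset_card_eq hsc
  refine ⟨s'.image f, ?_, ?_, ?_⟩
  · intro x hx
    obtain ⟨i, -, rfl⟩ := Finset.mem_image.1 hx
    exact hW' (e i).2
  · rw [Finset.card_image_of_injective _ hf, hsc']
  · intro x hx y hy
    obtain ⟨i, hi, rfl⟩ := Finset.mem_image.1 hx
    obtain ⟨l, hl, rfl⟩ := Finset.mem_image.1 hy
    exact hs i (hs' hi) l (hs' hl)

open Classical in
lemma card_nbr_lt (hG : Good G k) (a : V) : (univ.filter (fun x => G.Adj a x)).card < k :=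
  hG.2 _ fun x hx y hy hxy => hG.1 a x y (Finset.mem_filter.1 hx).2 hxy (Finset.mem_filter.1 hy).2

/-- An independent set of `m` vertices, equal or adjacent to none of four given vertices, two of
which are equal or adjacent or have a common neighbour. -/
lemma exists_away (hG : Good G k) (m : ℕ) (z : Fin 4 → V) (hV : R m + 4 * k ≤ Fintype.card V + 1)
    {i₀ i₁ : Fin 4} (hi : i₀ ≠ i₁) {w : V} (h0 : w = z i₀ ∨ G.Adj (z i₀) w)
    (h1' : w = z i₁ ∨ G.Adj (z i₁) w) :
    ∃ P : Finset V, P.card = m ∧ (∀ x ∈ P, ∀ y ∈ P, ¬ G.Adj x y) ∧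
      ∀ x ∈ P, ∀ i, x ≠ z i ∧ ¬ G.Adj (z i) x := by
  classical
  set W : Finset V := univ.filter (fun x => ∀ i, x ≠ z i ∧ ¬ G.Adj (z i) x) with hW
  have hcov : (univ : Finset V) ⊆ W ∪ (univ : Finset (Fin 4)).biUnion
      (fun i => insert (z i) (univ.filter (fun x => G.Adj (z i) x))) := by
    intro x _
    by_cases hx : ∀ i, x ≠ z i ∧ ¬ G.Adj (z i) x
    · exact Finset.mem_union_left _ (by simp [hW, hx])
    · push Not at hx
      obtain ⟨i, hi⟩ := hx
      refine Finset.mem_union_right _ (Finset.mem_biUnion.2 ⟨i, Finset.mem_univ _, ?_⟩)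
      by_cases h : x = z i
      · rw [h]
        exact Finset.mem_insert_self _ _
      · exact Finset.mem_insert_of_mem (by simp [hi h])
  set s : Fin 4 → Finset V := fun i => insert (z i) (univ.filter (fun x => G.Adj (z i) x)) with hs
  have hsk : ∀ i, (s i).card ≤ k := by
    intro i
    have h4 := card_nbr_lt hG (z i)
    have h5 := Finset.card_insert_le (z i) (univ.filter (fun x => G.Adj (z i) x))
    exact h5.trans h4
  have hmem : ∀ i, (w = z i ∨ G.Adj (z i) w) → w ∈ s i := by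
    intro i h
    simpa [hs] using h
  have hsub : (univ : Finset (Fin 4)).biUnion s ⊆
      ((univ : Finset (Fin 4)).erase i₀).biUnion s ∪ (s i₀).erase w := by
    intro x hx
    obtain ⟨i, -, hxi⟩ := Finset.mem_biUnion.1 hx
    by_cases hii : i = i₀
    · by_cases hxw : x = w
      · refine Finset.mem_union_left _ (Finset.mem_biUnion.2 ⟨i₁, ?_, ?_⟩)
        · exact Finset.mem_erase.2 ⟨hi.symm, Finset.mem_univ _⟩
        · rw [hxw]
          exact hmem i₁ h1'
      · exact Finset.mem_union_right _ (Finset.mem_erase.2 ⟨hxw, hii ▸ hxi⟩)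
    · exact Finset.mem_union_left _ (Finset.mem_biUnion.2
        ⟨i, Finset.mem_erase.2 ⟨hii, Finset.mem_univ _⟩, hxi⟩)
  have h1 := Finset.card_le_card hcov
  have h2 := Finset.card_union_le W ((univ : Finset (Fin 4)).biUnion s)
  have h3 := Finset.card_le_card hsub
  have h4 := Finset.card_union_le (((univ : Finset (Fin 4)).erase i₀).biUnion s) ((s i₀).erase w)
  have h5 : (((univ : Finset (Fin 4)).erase i₀).biUnion s).card ≤
      ((univ : Finset (Fin 4)).erase i₀).card * k :=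
    Finset.card_biUnion_le_card_mul _ _ _ fun i _ => hsk i
  have h6 : ((univ : Finset (Fin 4)).erase i₀).card = 3 := by
    rw [Finset.card_erase_of_mem (Finset.mem_univ _), Finset.card_univ, Fintype.card_fin]
  have h7 : ((s i₀).erase w).card = (s i₀).card - 1 := Finset.card_erase_of_mem (hmem i₀ h0)
  have h8 : 0 < (s i₀).card := Finset.card_pos.2 ⟨w, hmem i₀ h0⟩
  have h9 := hsk i₀
  rw [Finset.card_univ] at h1
  rw [h6] at h5
  obtain ⟨P, hPW, hPc, hP⟩ := exists_indep hG.1 m W (by omega)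
  refine ⟨P, hPc, hP, ?_⟩
  intro x hx
  have := hPW hx
  rw [hW, Finset.mem_filter] at this
  exact this.2

end find

section main

/-- Disjoint union. -/
theorem R_join {a : ℕ} (ha : 1 ≤ a) (b : ℕ) : R a + R (b + 1) ≤ R (a + b) + 1 := by
  have h1 : 0 < R a := R_pos ha
  have h2 : 0 < R (b + 1) := R_pos (by omega)
  obtain ⟨G, hG⟩ := exists_good (k := a) (n := R a - 1) (by omega)
  obtain ⟨H, hH⟩ := exists_good (k := b + 1) (n := R (b + 1) - 1) (by omega)
  have h := Pool.Agent.H45.RM.good_double hG hH ∅ (fun _ => ∅) (fun _ => ∅) (by simp) (by simp)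
    (by simp) (by
      intro I T hT hI _ _
      have h5 : T = ∅ := Finset.subset_empty.1 hT
      rw [h5, Finset.card_empty, Nat.add_zero]
      exact hG.2 I hI)
  rw [Fintype.card_fin, Fintype.card_fin, Finset.card_empty] at h
  omega

variable {V Y : Type*} [Fintype V] [Fintype Y] {G : SimpleGraph V} {H : SimpleGraph Y} {k j : ℕ}

/-- A four-cycle, a pair of far vertices, or a vertex with four neighbours. -/
lemma three_cases (hV : 11 ≤ Fintype.card V) :
    (∃ a b c d : V, a ≠ b ∧ c ≠ d ∧ G.Adj a c ∧ G.Adj b c ∧ G.Adj a d ∧ G.Adj b d) ∨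
    (∃ g g' : V, g ≠ g' ∧ ¬ G.Adj g g' ∧ ∀ x, G.Adj g x → ¬ G.Adj g' x) ∨
    (∃ d a b a' b' : V, G.Adj a d ∧ G.Adj b d ∧ G.Adj a' d ∧ G.Adj b' d ∧
      a ≠ b ∧ a ≠ a' ∧ a ≠ b' ∧ b ≠ a' ∧ b ≠ b' ∧ a' ≠ b') := by
  classical
  by_contra hno
  push Not at hno
  obtain ⟨-, hfar, hstar⟩ := hno
  have hdeg : ∀ d, (univ.filter (fun x => G.Adj d x)).card ≤ 3 := by
    intro d
    by_contra h
    push Not at h
    obtain ⟨a, b, a', b', ha, hb, ha', hb', h1, h2, h3, h4, h5, h6⟩ := exists_four_of_card h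
    simp only [Finset.mem_filter, Finset.mem_univ, true_and] at ha hb ha' hb'
    exact h6 (hstar d a b a' b' ha.symm hb.symm ha'.symm hb'.symm h1 h2 h3 h4 h5)
  have hne : Nonempty V := Fintype.card_pos_iff.1 (by omega)
  obtain ⟨v⟩ := hne
  have hsub : (univ : Finset V) ⊆ insert v ((univ.filter (fun x => G.Adj v x)) ∪
      (univ.filter (fun x => G.Adj v x)).biUnion
        (fun u => (univ.filter (fun x => G.Adj u x)).erase v)) := by
    intro w _
    by_cases hwv : w = v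
    · simp [hwv]
    by_cases hadj : G.Adj v w
    · simp [hadj]
    obtain ⟨x, hx1, hx2⟩ := hfar v w (Ne.symm hwv) hadj
    simp only [Finset.mem_insert, Finset.mem_union, Finset.mem_biUnion, Finset.mem_filter,
      Finset.mem_univ, true_and, Finset.mem_erase]
    exact Or.inr (Or.inr ⟨x, hx1, hwv, hx2.symm⟩)
  have h1 := Finset.card_le_card hsub
  rw [Finset.card_univ] at h1
  have h2 := Finset.card_insert_le v ((univ.filter (fun x => G.Adj v x)) ∪
      (univ.filter (fun x => G.Adj v x)).biUnion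
        (fun u => (univ.filter (fun x => G.Adj u x)).erase v))
  have h3 := Finset.card_union_le (univ.filter (fun x => G.Adj v x))
      ((univ.filter (fun x => G.Adj v x)).biUnion
        (fun u => (univ.filter (fun x => G.Adj u x)).erase v))
  have h4 : ((univ.filter (fun x => G.Adj v x)).biUnion
        (fun u => (univ.filter (fun x => G.Adj u x)).erase v)).card ≤
      (univ.filter (fun x => G.Adj v x)).card * 2 := by
    apply Finset.card_biUnion_le_card_mul
    intro u hu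
    simp only [Finset.mem_filter, Finset.mem_univ, true_and] at hu
    have hvu : v ∈ univ.filter (fun x => G.Adj u x) := by
      simp only [Finset.mem_filter, Finset.mem_univ, true_and]
      exact hu.symm
    rw [Finset.card_erase_of_mem hvu]
    have := hdeg u
    omega
  have := hdeg v
  omega

/-- The extension for one edge and independent vertices. -/
lemma ext_wide (hG : Good G k) (hH : Good H (j + 1)) (hV : 11 ≤ Fintype.card V) {u v : Y}
    (huv : H.Adj u v) (F : Finset Y) (hF : ∀ x ∈ F, ∀ y ∈ F, ¬ H.Adj x y)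
    (hFu : ∀ x ∈ F, ¬ H.Adj u x ∧ ¬ H.Adj v x) (hu : u ∉ F) (hv : v ∉ F)
    (hc : R F.card + 4 * k ≤ Fintype.card V + 1) :
    Fintype.card V + Fintype.card Y + (F.card + 2) < R (k + j) := by
  classical
  have hT := hG.1
  by_cases hC4 : ∃ a b c d : V, a ≠ b ∧ c ≠ d ∧ G.Adj a c ∧ G.Adj b c ∧ G.Adj a d ∧ G.Adj b d
  · obtain ⟨a, b, c, d, hab, hcd, hac, hbc, had, hbd⟩ := hC4
    obtain ⟨P, hPc, hP, hPz⟩ := exists_away hG F.card ![a, b, c, d] hc
      (i₀ := 0) (i₁ := 2) (by decide) (w := a) (Or.inl rfl) (Or.inr hac.symm)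
    refine ext_edge a hG hH huv F hF hFu hu hv P hP hPc
      {x | G.Adj a x ∧ x ≠ d} {x | (G.Adj b x ∧ ¬ G.Adj a x) ∨ x = a}
      {x | G.Adj d x ∧ x ≠ a} {x | (G.Adj c x ∧ ¬ G.Adj d x) ∨ x = d}
      (indep_nbr hG a d) (indep_nbr' hG a b) (indep_nbr hG d a) (indep_nbr' hG d c) ?_ ?_ ?_
    · rintro x (⟨h1, h2⟩ | ⟨h1, h2⟩ | rfl) (⟨h3, h4⟩ | ⟨h3, h4⟩ | rfl)
      · exact hT a d x had h3 h1
      · exact hT a c x hac h3 h1
      · exact h2 rfl
      · exact hT b d x hbd h3 h1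
      · exact hT b c x hbc h3 h1
      · exact h2 had
      · exact h4 rfl
      · exact h4 had.symm
      · exact G.loopless.irrefl _ had
    · intro I F' hI hF' hIF hA
      refine gain_star hG hab had hbd I F' hI (fun x hx y hy => hP x (hF' hx) y (hF' hy)) hIF ?_
        (fun x hx => (hA x hx).1) (fun x hx => (hA x hx).2)
      intro w hw
      have h0 := hPz w (hF' hw) 0
      have h1 := hPz w (hF' hw) 1
      exact ⟨h0.1, h1.1, h0.2, h1.2⟩
    · intro I F' hI hF' hIF hA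
      refine gain_star hG hcd.symm had.symm hac.symm I F' hI
        (fun x hx y hy => hP x (hF' hx) y (hF' hy)) hIF ?_
        (fun x hx => (hA x hx).1) (fun x hx => (hA x hx).2)
      intro w hw
      have h2 := hPz w (hF' hw) 2
      have h3 := hPz w (hF' hw) 3
      exact ⟨h3.1, h2.1, h3.2, h2.2⟩
  by_cases hfar : ∃ g g' : V, g ≠ g' ∧ ¬ G.Adj g g' ∧ ∀ x, G.Adj g x → ¬ G.Adj g' x
  · obtain ⟨g, g', hne, hadj, hno⟩ := hfar
    obtain ⟨P, hPc, hP, hPz⟩ := exists_away hG F.card ![g, g', g, g'] hc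
      (i₀ := 0) (i₁ := 2) (by decide) (w := g) (Or.inl rfl) (Or.inl rfl)
    have hg := fun w hw => hPz w hw 0
    have hg' := fun w hw => hPz w hw 1
    have gain : ∀ q : V, (∀ w ∈ P, w ≠ q ∧ ¬ G.Adj q w) → ∀ I F' : Finset V,
        (∀ x ∈ I, ∀ y ∈ I, ¬ G.Adj x y) → F' ⊆ P → (∀ v ∈ F', ∀ u ∈ I, u ≠ v ∧ ¬ G.Adj v u) →
        (∀ x ∈ I, x ∉ {x | G.Adj q x} ∧ x ∉ ({q} : Set V)) → I.card + F'.card + 1 < k := by
      intro q hq I F' hI hF' hIF hA
      have hqI : q ∉ I := fun h => (hA q h).2 rfl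
      have h := gain_zero hG (insert q I) F' ?_ (fun x hx y hy => hP x (hF' hx) y (hF' hy)) ?_
      · rw [Finset.card_insert_of_notMem hqI] at h
        omega
      · intro x hx y hy hxy
        simp only [Finset.mem_insert] at hx hy
        rcases hx with rfl | hx <;> rcases hy with rfl | hy
        · exact G.loopless.irrefl _ hxy
        · exact (hA y hy).1 hxy
        · exact (hA x hx).1 hxy.symm
        · exact hI x hx y hy hxy
      · intro v hv u hu
        obtain ⟨e1, e2⟩ := hq v (hF' hv)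
        simp only [Finset.mem_insert] at hu
        rcases hu with rfl | hu
        · exact ⟨e1.symm, fun h => e2 h.symm⟩
        · exact hIF v hv u hu
    refine ext_edge g hG hH huv F hF hFu hu hv P hP hPc
      {x | G.Adj g x} {g} {x | G.Adj g' x} {g'} ?_ ?_ ?_ ?_ ?_ (gain g hg) (gain g' hg')
    · exact fun x hx y hy hxy => hT g x y hx hxy hy
    · rintro x rfl y rfl; exact G.loopless.irrefl _
    · exact fun x hx y hy hxy => hT g' x y hx hxy hy
    · rintro x rfl y rfl; exact G.loopless.irrefl _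
    · rintro x (h1 | h1) (h2 | h2)
      · exact hno x h1 h2
      · rw [Set.mem_singleton_iff] at h2
        rw [h2] at h1
        exact hadj h1
      · rw [Set.mem_singleton_iff] at h1
        rw [h1] at h2
        exact hadj (show G.Adj g' g from h2).symm
      · rw [Set.mem_singleton_iff] at h1 h2
        exact hne (h1.symm.trans h2)
  have hC : ∀ a b c d, a ≠ b → G.Adj a c → G.Adj b c → G.Adj a d → G.Adj b d → c = d := by
    intro a b c d hab h1 h2 h3 h4
    by_contra hcd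
    exact hC4 ⟨a, b, c, d, hab, hcd, h1, h2, h3, h4⟩
  rcases three_cases (G := G) hV with h | h | ⟨d, a, b, a', b', h1, h2, h3, h4, hab, haa, hab', hba,
    hbb, ha'b'⟩
  · exact absurd h hC4
  · exact absurd h hfar
  obtain ⟨P, hPc, hP, hPz⟩ := exists_away hG F.card ![a, b, a', b'] hc
    (i₀ := 0) (i₁ := 1) (by decide) (w := d) (Or.inr h1) (Or.inr h2)
  refine ext_edge d hG hH huv F hF hFu hu hv P hP hPc
    {x | G.Adj a x ∧ x ≠ d} {x | (G.Adj b x ∧ ¬ G.Adj a x) ∨ x = a}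
    {x | G.Adj a' x ∧ x ≠ d} {x | (G.Adj b' x ∧ ¬ G.Adj a' x) ∨ x = a'}
    (indep_nbr hG a d) (indep_nbr' hG a b) (indep_nbr hG a' d) (indep_nbr' hG a' b') ?_ ?_ ?_
  · rintro x (⟨h5, h6⟩ | ⟨h5, h6⟩ | rfl) (⟨h7, h8⟩ | ⟨h7, h8⟩ | rfl)
    · exact h6 (hC a a' x d haa h5 h7 h1 h3)
    · exact h6 (hC a b' x d hab' h5 h7 h1 h4)
    · exact hT a x d h5 h3 h1
    · exact h8 (hC b a' x d hba h5 h7 h2 h3)
    · have := hC b b' x d hbb h5 h7 h2 h4
      subst this
      exact h6 h1
    · exact hT b x d h5 h3 h2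
    · exact hT a' x d h7 h1 h3
    · exact hT b' x d h7 h1 h4
    · exact haa rfl
  · intro I F' hI hF' hIF hA
    refine gain_star hG hab h1 h2 I F' hI (fun x hx y hy => hP x (hF' hx) y (hF' hy)) hIF ?_
      (fun x hx => (hA x hx).1) (fun x hx => (hA x hx).2)
    intro w hw
    have e0 := hPz w (hF' hw) 0
    have e1 := hPz w (hF' hw) 1
    exact ⟨e0.1, e1.1, e0.2, e1.2⟩
  · intro I F' hI hF' hIF hA
    refine gain_star hG ha'b' h3 h4 I F' hI (fun x hx y hy => hP x (hF' hx) y (hF' hy)) hIF ?_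
      (fun x hx => (hA x hx).1) (fun x hx => (hA x hx).2)
    intro w hw
    have e2 := hPz w (hF' hw) 2
    have e3 := hPz w (hF' hw) 3
    exact ⟨e2.1, e3.1, e2.2, e3.2⟩

/-- `R(3,k+j) ≥ R(3,k) + R(3,j+1) + j` whenever `R(3,j-1) + 4k ≤ R(3,k)`. -/
theorem wide {k j : ℕ} (hk : 1 ≤ k) (hj : 1 ≤ j) (h : R (j - 1) + 4 * k ≤ R k) :
    R k + R (j + 1) + j ≤ R (k + j) := by
  have h1 : 0 < R k := R_pos hk
  have h2 : 0 < R (j + 1) := R_pos (by omega)
  obtain ⟨G, hG⟩ := exists_good (k := k) (n := R k - 1) (by omega)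
  have hsq := card_le_sq hG.1 k Finset.univ (fun s _ hs => hG.2 s hs)
  rw [Finset.card_univ, Fintype.card_fin] at hsq
  have hk4 : 3 ≤ k := by
    by_contra hlt
    have : k = 1 ∨ k = 2 := by omega
    rcases this with rfl | rfl <;> omega
  obtain ⟨H, hH, u, v, F, huv, hu, hv, hFc, hF, hFu⟩ := crit_edge j hj
  have key := ext_wide hG hH (by rw [Fintype.card_fin]; omega) huv F hF hFu hu hv
    (by rw [Fintype.card_fin, hFc]; omega)
  rw [Fintype.card_fin, Fintype.card_fin, hFc] at key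
  omega

lemma R_zero : R 0 = 0 := by
  have h : R 0 ≤ 0 := Nat.sInf_le fun G hG => by
    have := hG.2 ∅ (by simp)
    simp at this
  omega

private theorem ev_rpow (a : ℝ) (ha : 0 < a) (C : ℝ) :
    ∃ k₀ : ℕ, ∀ k : ℕ, k₀ ≤ k → C ≤ (k : ℝ) ^ a := by
  have h := (tendsto_rpow_atTop ha).comp (tendsto_natCast_atTop_atTop (R := ℝ))
  exact Filter.eventually_atTop.1 (h.eventually (Filter.eventually_ge_atTop C))

/-- `R(3,k+j) ≥ R(3,k) + R(3,j+1) + j` for all large `k` and `1 ≤ j ≤ k - k^(1/2+ε)`. -/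
theorem wide_eps (ε : ℝ) (hε : 0 < ε) : ∃ k₀ : ℕ, ∀ k : ℕ, k₀ ≤ k → ∀ j : ℕ, 1 ≤ j →
    (j : ℝ) ≤ k - (k : ℝ) ^ (1 / 2 + ε) → R k + R (j + 1) + j ≤ R (k + j) := by
  obtain ⟨δ, hδ⟩ : ∃ δ : ℝ, δ = min ε (1 / 4) := ⟨_, rfl⟩
  have hδ0 : 0 < δ := by rw [hδ]; exact lt_min hε (by norm_num)
  have hδε : δ ≤ ε := by rw [hδ]; exact min_le_left _ _
  have hδ4 : δ ≤ 1 / 4 := by rw [hδ]; exact min_le_right _ _
  obtain ⟨k₁, hk₁⟩ := Pool.Agent.H45.RM.growth δ hδ0
  obtain ⟨k₂, hk₂⟩ := ev_rpow δ hδ0 4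
  obtain ⟨k₃, hk₃⟩ := ev_rpow (1 / 2) (by norm_num) k₁
  refine ⟨max (max 1 k₁) (max k₂ k₃), fun k hk j hj hjk => ?_⟩
  have hk1 : 1 ≤ k := le_trans (le_trans (le_max_left _ _) (le_max_left _ _)) hk
  have hkk₁ : k₁ ≤ k := le_trans (le_trans (le_max_right _ _) (le_max_left _ _)) hk
  have hkR : (1 : ℝ) ≤ k := by exact_mod_cast hk1
  have hk0 : (0 : ℝ) < k := by linarith
  have h2 := hk₂ k (le_trans (le_trans (le_max_left _ _) (le_max_right _ _)) hk)
  have h3 := hk₃ k (le_trans (le_trans (le_max_right _ _) (le_max_right _ _)) hk)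
  have h4k : 4 * (k : ℝ) ≤ (k : ℝ) ^ (1 + δ) := by
    have e : (k : ℝ) ^ (1 + δ) = k * (k : ℝ) ^ δ := by
      rw [Real.rpow_add hk0, Real.rpow_one]
    rw [e]
    nlinarith
  refine wide hk1 hj ?_
  rcases Nat.lt_or_ge 1 j with hj2 | hj1
  · -- `j ≥ 2`
    have hjk' : (j : ℝ) ≤ k - (k : ℝ) ^ (1 / 2 + δ) := by
      have : (k : ℝ) ^ (1 / 2 + δ) ≤ (k : ℝ) ^ (1 / 2 + ε) :=
        Real.rpow_le_rpow_of_exponent_le hkR (by linarith)
      linarith
    have hpos : (0 : ℝ) < (k : ℝ) ^ (1 / 2 + δ) := Real.rpow_pos_of_pos hk0 _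
    have hjlt : j ≤ k := by
      have : (j : ℝ) ≤ k := by linarith
      exact_mod_cast this
    obtain ⟨s, hs⟩ : ∃ s : ℕ, s = k - j + 1 + 1 := ⟨_, rfl⟩
    have hsR : (k : ℝ) ^ (1 / 2 + δ) ≤ s := by
      have : (s : ℝ) = k - j + 1 + 1 := by
        rw [hs]
        push_cast [Nat.cast_sub hjlt]
        ring
      rw [this]
      linarith
    have hs1 : k₁ ≤ s := by
      have h5 : (k : ℝ) ^ ((1 : ℝ) / 2) ≤ (k : ℝ) ^ (1 / 2 + δ) :=
        Real.rpow_le_rpow_of_exponent_le hkR (by linarith)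
      have h6 : (k₁ : ℝ) ≤ s := by linarith
      exact_mod_cast h6
    have h7 := hk₁ s hs1
    have h8 : (k : ℝ) ^ (1 + δ) ≤ (s : ℝ) ^ (2 - δ) := by
      calc (k : ℝ) ^ (1 + δ) ≤ (k : ℝ) ^ ((1 / 2 + δ) * (2 - δ)) :=
            Real.rpow_le_rpow_of_exponent_le hkR (by nlinarith)
        _ = ((k : ℝ) ^ (1 / 2 + δ)) ^ (2 - δ) := by rw [← Real.rpow_mul hk0.le]
        _ ≤ (s : ℝ) ^ (2 - δ) := Real.rpow_le_rpow hpos.le hsR (by linarith)
    have h9 : 4 * k ≤ R s - 1 := by
      have : ((4 * k : ℕ) : ℝ) ≤ ((R s - 1 : ℕ) : ℝ) := by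
        push_cast [-Nat.cast_sub, -Nat.cast_pred]
        linarith
      exact_mod_cast this
    have h10 := R_join (a := j - 1) (by omega) (k - j + 1)
    rw [← hs, show j - 1 + (k - j + 1) = k by omega] at h10
    omega
  · have : j = 1 := by omega
    subst this
    rw [Nat.sub_self, R_zero, Nat.zero_add]
    have h7 := hk₁ k hkk₁
    have h8 : (k : ℝ) ^ (1 + δ) ≤ (k : ℝ) ^ (2 - δ) :=
      Real.rpow_le_rpow_of_exponent_le hkR (by linarith)
    have h9 : 4 * k ≤ R k - 1 := by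
      have : ((4 * k : ℕ) : ℝ) ≤ ((R k - 1 : ℕ) : ℝ) := by
        push_cast [-Nat.cast_sub, -Nat.cast_pred]
        linarith
      exact_mod_cast this
    omega

end main

end Pool.Agent.H32.RJ4
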